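import Pool.Agent.Helper78.LK.Goals

set_option autoImplicit false

namespace Pool.Agent.Helper13.LK

open Pool.Agent.Helper50.KP Pool.Agent.Helper78.LK

theorem sn_or (k x : ℕ) : sn k x = 1 ∨ sn k x = -1 := by
  unfold sn
  split_ifs <;> simp

theorem gGOD (hCLS : CLS) (hFAR : FAR) : GOD := by
  refine ⟨?_, ?_⟩
  · intro k T hT
    obtain ⟨cl, h0, h1, h2⟩ := hCLS (24 * k + 2)
      (T.image (fun x => tm k x true) ∪ T.image (fun x => tm k x false))
    set P := T.image (fun x => tm k x true) ∪ T.image (fun x => tm k x false) with hP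
    have hc : P.card ≤ 2 * k := by
      refine (Finset.card_union_le _ _).trans ?_
      refine (Nat.add_le_add Finset.card_image_le Finset.card_image_le).trans ?_
      omega
    refine ⟨cl, h0, ?_, ?_⟩
    · intro x hx _ _ o
      apply h1
      rw [hP, Finset.mem_union, Finset.mem_image, Finset.mem_image]
      cases o
      · exact Or.inr ⟨x, hx, rfl⟩
      · exact Or.inl ⟨x, hx, rfl⟩
    · intro p q hp hq hF
      rcases hF with ⟨ha, hb⟩ | ⟨ha, hb⟩
      · exact h2 p q (by omega) (by omega) (by omega) (by omega)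
      · exact (h2 q p (by omega) (by omega) (by omega) (by omega)).symm
  · intro k T cl hG
    obtain ⟨h0, h1, h2⟩ := hG
    refine ⟨?_, ?_, ?_⟩
    · intro p
      have hno : ∀ e, ¬ Has k T cl p p e := by
        rintro e ⟨x, hx, hx1, hx2, ha, hb, -⟩
        obtain ⟨hle, hfar, -⟩ := hFAR k x x hx1 hx2 hx1 hx2
        exact h2 _ _ (hle true) (hle false) hfar (ha.trans hb.symm)
      simp only [datOf]
      rw [if_neg (hno 1), if_neg (hno (-1))]
    · intro p q
      simp only [datOf]
      split_ifs <;> simp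
    · intro x hx hx1 hx2
      have hhas : Has k T cl (cl (tm k x true)) (cl (tm k x false)) (sn k x) :=
        ⟨x, hx, hx1, hx2, rfl, rfl, rfl⟩
      have hno : ∀ e, e ≠ sn k x → ¬ Has k T cl (cl (tm k x true)) (cl (tm k x false)) e := by
        rintro e he ⟨y, hy, hy1, hy2, ha, hb, hc⟩
        obtain ⟨hlex, -, hf⟩ := hFAR k x y hx1 hx2 hy1 hy2
        obtain ⟨hley, -, -⟩ := hFAR k y x hy1 hy2 hx1 hx2
        rcases hf (fun h => he (hc.symm.trans h.symm)) with hf | hf
        · exact h2 _ _ (hlex true) (hley true) hf ha.symm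
        · exact h2 _ _ (hlex false) (hley false) hf hb.symm
      simp only [datOf]
      rcases sn_or k x with hs | hs
      · rw [hs] at hhas ⊢
        rw [if_pos hhas]
      · rw [if_neg (hno 1 (by rw [hs]; norm_num))]
        rw [hs] at hhas ⊢
        rw [if_pos hhas]

end Pool.Agent.Helper13.LK
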