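import Pool.Agent.Helper78.LK.Goals

set_option autoImplicit false

namespace Pool.Agent.Helper13.LK

open Pool.Agent.Helper50.KP Pool.Agent.Helper78.LK

/-- positive crossing -/
abbrev p (i : ℕ) : Ev := (.X true, i)

/-- negative crossing -/
abbrev m (i : ℕ) : Ev := (.X false, i)

theorem gREL (hTQ : TQ) : REL := by
  obtain ⟨hsym, -, -, hst⟩ := hTQ
  have s1 : Teq 4 [p 1, p 0, m 2, m 1, p 2, m 0, p 1, p 0, m 2, m 1]
      [p 1, p 0, m 2, m 1, p 2, p 1, p 0, m 1, m 2, m 1] :=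
    hst 4 [p 1, p 0, m 2, m 1, p 2] [m 2, m 1] [m 0, p 1, p 0] [p 1, p 0, m 1]
      (Or.inr (Or.inr (Or.inl (Rd.r3 0 false true true (by simp))))) (by decide) (by decide)
  have s2 : Teq 4 [p 1, p 0, m 2, m 1, p 2, p 1, p 0, m 1, m 2, m 1]
      [p 1, p 0, m 2, p 2, p 1, m 2, p 0, m 1, m 2, m 1] :=
    hst 4 [p 1, p 0, m 2] [p 0, m 1, m 2, m 1] [m 1, p 2, p 1] [p 2, p 1, m 2]
      (Or.inr (Or.inr (Or.inl (Rd.r3 1 false true true (by simp))))) (by decide) (by decide)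
  have s3 : Teq 4 [p 1, p 0, m 2, p 2, p 1, m 2, p 0, m 1, m 2, m 1]
      [p 1, p 0, p 1, m 2, p 0, m 1, m 2, m 1] :=
    hst 4 [p 1, p 0] [p 1, m 2, p 0, m 1, m 2, m 1] [m 2, p 2] []
      (Or.inr (Or.inr (Or.inl (Rd.r2 2 false)))) (by decide) (by decide)
  have s4 : Teq 4 [p 1, p 0, p 1, m 2, p 0, m 1, m 2, m 1]
      [p 1, p 0, p 1, p 0, m 2, m 1, m 2, m 1] :=
    hst 4 [p 1, p 0, p 1] [m 1, m 2, m 1] [m 2, p 0] [p 0, m 2]
      (Or.inr (Or.inl (Pl.comm (.X true) (.X false) 0 0))) (by decide) (by decide)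
  have s5 : Teq 4 [p 1, p 0, p 1, p 0, m 2, m 1, m 2, m 1]
      [p 1, p 1, p 0, p 1, m 2, m 1, m 2, m 1] :=
    hst 4 [p 1] [m 2, m 1, m 2, m 1] [p 0, p 1, p 0] [p 1, p 0, p 1]
      (Or.inr (Or.inr (Or.inl (Rd.r3 0 true true true (by simp))))) (by decide) (by decide)
  have s6 : Teq 4 [p 1, p 1, p 0, p 1, m 2, m 1, m 2, m 1]
      [p 1, p 1, p 0, p 1, m 1, m 2, m 1, m 1] :=
    hst 4 [p 1, p 1, p 0, p 1] [m 1] [m 2, m 1, m 2] [m 1, m 2, m 1]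
      (Or.inr (Or.inr (Or.inr (Rd.r3 1 false false false (by simp))))) (by decide) (by decide)
  have s7 : Teq 4 [p 1, p 1, p 0, p 1, m 1, m 2, m 1, m 1]
      [p 1, p 1, p 0, m 2, m 1, m 1] :=
    hst 4 [p 1, p 1, p 0] [m 2, m 1, m 1] [p 1, m 1] []
      (Or.inr (Or.inr (Or.inl (Rd.r2 1 true)))) (by decide) (by decide)
  have h := ((((((s1.trans s2).trans s3).trans s4).trans s5).trans s6).trans s7)
  exact (hsym _ _ _ h).1

end Pool.Agent.Helper13.LK
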